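import Pool.Agent.T2H62.MO.C
import Pool.Agent.T2H62.MD.U

set_option autoImplicit false

/-! # The number of the random primes `(b ^ p + 1) / (b + 1)` -/

namespace Pool.Agent.T2H62.MO

open Finset Filter Topology MeasureTheory ProbabilityTheory
open Pool.Agent.T2H53.GW
open Pool.Agent.T2H62.MD

variable {Ω : Type*} [MeasurableSpace Ω] {μ : Measure Ω} [IsProbabilityMeasure μ] {S : ℕ → Set Ω} {b : ℕ}

/-- the indices -/
def IX (x : ℕ) : Finset ℕ := (range x).filter (fun i => 2 * i + 3 ≤ x ∧ (2 * i + 3).Prime)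

open scoped Classical in
theorem reindex (f : ℕ → ℝ) (x : ℕ) :
    ∑ i ∈ IX x, f (2 * i + 3) = ∑ p ∈ Ioc 1 x, if p.Prime ∧ 2 < p then f p else 0 := by
  rw [← sum_filter]
  refine sum_nbij' (fun i => 2 * i + 3) (fun p => (p - 3) / 2) ?_ ?_ ?_ ?_ ?_
  · intro i hi
    unfold IX at hi
    rw [mem_filter, mem_range] at hi
    rw [mem_filter, mem_Ioc]
    exact ⟨by omega, hi.2.2, by omega⟩
  · intro p hp
    rw [mem_filter, mem_Ioc] at hp
    have hodd : p % 2 = 1 := by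
      rcases hp.2.1.eq_two_or_odd with h6 | h6
      · omega
      · exact h6
    have e : 2 * ((p - 3) / 2) + 3 = p := by omega
    unfold IX
    rw [mem_filter, mem_range, e]
    exact ⟨by omega, hp.1.2, hp.2.1⟩
  · intro i hi
    show (2 * i + 3 - 3) / 2 = i
    omega
  · intro p hp
    rw [mem_filter, mem_Ioc] at hp
    have hodd : p % 2 = 1 := by
      rcases hp.2.1.eq_two_or_odd with h6 | h6
      · omega
      · exact h6
    show 2 * ((p - 3) / 2) + 3 = p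
    omega
  · intro i _
    rfl

theorem indep_Q (hi : iIndepSet S μ) (hb : 2 ≤ b) : iIndepSet (fun i : ℕ => S (Q b (2 * i + 3))) μ := by
  have hinj : Function.Injective (fun i : ℕ => Q b (2 * i + 3)) := by
    have hmono : StrictMono (fun i : ℕ => Q b (2 * i + 3)) := by
      apply strictMono_nat_of_lt_succ
      intro n
      exact Q_mono hb ⟨n + 1, by ring⟩ ⟨n + 2, by ring⟩ (by omega)
    exact hmono.injective
  exact hi.precomp hinj

/-- the count along the powers of two -/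
theorem count_pow (A : ℝ) (hA : 0 < A) (hm : ∀ n, MeasurableSet (S n)) (hi : iIndepSet S μ)
    (hp : ∀ n, μ.real (S n) = pr A n) (hb : 2 ≤ b) (δ : ℝ) (hδ : 0 < δ) :
    ∀ᵐ ω ∂μ, ∀ᶠ j : ℕ in atTop,
      |cnt (IX (2 ^ j)) (fun i : ℕ => S (Q b (2 * i + 3))) ω - cc b * Real.log 2 * j| ≤ δ * j := by
  classical
  have hc := cc_pos hb
  have hl2 : 0 < Real.log 2 := Real.log_pos (by norm_num)
  have hpow : Tendsto (fun j : ℕ => 2 ^ j) atTop atTop := tendsto_pow_atTop_atTop_of_one_lt (by norm_num)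
  obtain ⟨V, hV⟩ : ∃ V : ℕ → ℝ, V = fun j : ℕ => ∑ p ∈ Ioc 1 (2 ^ j), hw A b p := ⟨_, rfl⟩
  have hmean : ∀ j : ℕ, ∑ i ∈ IX (2 ^ j), μ.real (S (Q b (2 * i + 3))) = V j := by
    intro j
    rw [hV]
    simp only [hp]
    rw [reindex (fun p => pr A (Q b p)) (2 ^ j)]
    refine sum_congr rfl fun p _ => ?_
    unfold hw
    rfl
  -- the mean
  have hVlim : ∀ e : ℝ, 0 < e → ∀ᶠ j : ℕ in atTop, |V j - cc b * Real.log 2 * j| ≤ e * j := by
    intro e he
    have h1 := (hw_lim A hA hb).comp hpow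
    obtain ⟨N, hN⟩ := (Metric.tendsto_atTop.1 h1) (e / Real.log 2) (by positivity)
    filter_upwards [eventually_ge_atTop (N + 1)] with j hj
    have h2 := hN j (by omega)
    have hj0 : (0 : ℝ) < j := by exact_mod_cast (by omega : 0 < j)
    rw [Real.dist_eq] at h2
    simp only [Function.comp] at h2
    have h3 : Real.log ((2 ^ j : ℕ) : ℝ) = j * Real.log 2 := by push_cast; rw [Real.log_pow]
    rw [h3] at h2
    have h4 : V j - cc b * Real.log 2 * j = (V j / (j * Real.log 2) - cc b) * (j * Real.log 2) := by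
      field_simp
    rw [h4, abs_mul, abs_of_pos (show 0 < (j : ℝ) * Real.log 2 by positivity)]
    have h5 : V j = ∑ p ∈ Ioc 1 (2 ^ j), hw A b p := by rw [hV]
    rw [h5]
    calc _ ≤ e / Real.log 2 * (j * Real.log 2) := mul_le_mul_of_nonneg_right h2.le (by positivity)
      _ = e * j := by field_simp
  obtain ⟨M, hM⟩ : ∃ M : ℝ, M = cc b * Real.log 2 + δ := ⟨_, rfl⟩
  have hM0 : 0 < M := by rw [hM]; positivity
  have hδM : δ / 2 ≤ M := by
    rw [hM]
    have : 0 < cc b * Real.log 2 := by positivity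
    linarith
  obtain ⟨κ, hκ⟩ : ∃ κ : ℝ, κ = (δ / 2) ^ 2 / (4 * M) := ⟨_, rfl⟩
  have hκ0 : 0 < κ := by rw [hκ]; positivity
  have hprob : ∀ᶠ j : ℕ in atTop, μ.real {ω | δ / 2 * j ≤ |cnt (IX (2 ^ j)) (fun i : ℕ => S (Q b (2 * i + 3))) ω -
      ∑ i ∈ IX (2 ^ j), μ.real (S (Q b (2 * i + 3)))|} ≤ 2 * Real.exp (-κ) ^ j := by
    filter_upwards [hVlim δ hδ, eventually_ge_atTop 1] with j h1 h2
    have hj0 : (0 : ℝ) < j := by exact_mod_cast h2
    have h3 : ∑ i ∈ IX (2 ^ j), μ.real (S (Q b (2 * i + 3))) ≤ M * j := by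
      rw [hmean, hM]
      have := (abs_le.1 h1).2
      linarith
    have h4 := chernoff (fun i : ℕ => S (Q b (2 * i + 3))) (fun i => hm _) (indep_Q hi hb) (IX (2 ^ j)) (M * j)
      (δ / 2 * j) h3 (by positivity) (mul_le_mul_of_nonneg_right hδM hj0.le) (by positivity)
    refine h4.trans (le_of_eq ?_)
    congr 1
    rw [← Real.exp_nat_mul]
    congr 1
    rw [hκ]
    field_simp
  obtain ⟨n₀, hn₀⟩ := eventually_atTop.1 hprob
  have hsum : Summable (fun j : ℕ => 2 * Real.exp (-κ) ^ j) := by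
    apply Summable.mul_left
    apply summable_geometric_of_lt_one (Real.exp_pos _).le
    rw [Real.exp_lt_one_iff]
    linarith
  have h2 := bc (μ := μ) _ n₀ _ hsum (fun n hn => hn₀ n hn)
  filter_upwards [h2] with ω hω
  filter_upwards [hω, hVlim (δ / 2) (by positivity)] with j h3 h4
  have h5 : |cnt (IX (2 ^ j)) (fun i : ℕ => S (Q b (2 * i + 3))) ω -
      ∑ i ∈ IX (2 ^ j), μ.real (S (Q b (2 * i + 3)))| < δ / 2 * j := by
    by_contra hcon
    push Not at hcon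
    exact h3 hcon
  rw [hmean] at h5
  have h6 := abs_add_le (cnt (IX (2 ^ j)) (fun i : ℕ => S (Q b (2 * i + 3))) ω - V j) (V j - cc b * Real.log 2 * j)
  rw [sub_add_sub_cancel] at h6
  linarith

theorem cnt_mono' {F : ℕ → Set Ω} {ω : Ω} {x y : ℕ} (h : x ≤ y) : cnt (IX x) F ω ≤ cnt (IX y) F ω := by
  unfold cnt
  refine sum_le_sum_of_subset_of_nonneg ?_ fun i _ _ => Set.indicator_nonneg (fun _ _ => zero_le_one) _
  intro i hi
  unfold IX at hi ⊢
  rw [mem_filter, mem_range] at hi ⊢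
  exact ⟨by omega, by omega, hi.2.2⟩

/-- **the number of the exponents** -/
theorem count_all (A : ℝ) (hA : 0 < A) (hm : ∀ n, MeasurableSet (S n)) (hi : iIndepSet S μ)
    (hp : ∀ n, μ.real (S n) = pr A n) :
    ∀ᵐ ω ∂μ, ∀ b : ℕ, 2 ≤ b →
      Tendsto (fun x : ℕ => cnt (IX x) (fun i : ℕ => S (Q b (2 * i + 3))) ω / Real.log x) atTop (𝓝 (cc b)) := by
  have hall : ∀ᵐ ω ∂μ, ∀ b i : ℕ, 2 ≤ b → ∀ᶠ j : ℕ in atTop,
      |cnt (IX (2 ^ j)) (fun i : ℕ => S (Q b (2 * i + 3))) ω - cc b * Real.log 2 * j| ≤ 1 / ((i : ℝ) + 1) * j := by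
    rw [ae_all_iff]; intro b
    rw [ae_all_iff]; intro i
    by_cases hb : 2 ≤ b
    · filter_upwards [count_pow A hA hm hi hp hb (1 / ((i : ℝ) + 1)) (by positivity)] with ω hω _
      exact hω
    · exact Eventually.of_forall fun ω h => absurd h hb
  filter_upwards [hall] with ω hω b hb
  have hc := cc_pos hb
  have hl2 : 0 < Real.log 2 := Real.log_pos (by norm_num)
  rw [Metric.tendsto_atTop]
  intro ε hε
  obtain ⟨i, hi'⟩ := exists_nat_one_div_lt (show 0 < min (cc b * Real.log 2 / 2) (ε * Real.log 2 / 2) by positivity)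
  obtain ⟨δ, hδ⟩ : ∃ δ : ℝ, δ = 1 / ((i : ℝ) + 1) := ⟨_, rfl⟩
  have hδ0 : 0 < δ := by rw [hδ]; positivity
  have hδ1 : δ ≤ cc b * Real.log 2 / 2 := by rw [hδ]; exact (hi'.le).trans (min_le_left _ _)
  have hδ2 : δ ≤ ε * Real.log 2 / 2 := by rw [hδ]; exact (hi'.le).trans (min_le_right _ _)
  obtain ⟨j₀, hj₀⟩ := eventually_atTop.1 (hω b i hb)
  rw [← hδ] at hj₀
  have hTn : Tendsto (fun n : ℕ => (n : ℝ)) atTop atTop := tendsto_natCast_atTop_atTop
  have hlog : Tendsto (fun n : ℕ => Real.log (n : ℝ)) atTop atTop := Real.tendsto_log_atTop.comp hTn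
  obtain ⟨N, hN⟩ := eventually_atTop.1 (hlog.eventually_gt_atTop ((cc b * Real.log 2 + δ) * 2 / ε))
  refine ⟨N + 2 ^ j₀ + 3, fun x hx => ?_⟩
  have hpos : 0 < 2 ^ j₀ := by positivity
  have hlx := hN x (by omega)
  obtain ⟨J, hJ⟩ : ∃ J, J = Nat.log 2 x := ⟨_, rfl⟩
  have hx0 : x ≠ 0 := by omega
  have hJx : 2 ^ J ≤ x := by rw [hJ]; exact Nat.pow_log_le_self 2 hx0
  have hxJ : x < 2 ^ (J + 1) := by rw [hJ]; exact Nat.lt_pow_succ_log_self (by norm_num) x
  have hJn : j₀ ≤ J := by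
    rw [hJ]
    apply Nat.le_log_of_pow_le (by norm_num)
    omega
  have hxr : (0 : ℝ) < x := by exact_mod_cast (by omega : 0 < x)
  have hl : 0 < Real.log (x : ℝ) := Real.log_pos (by exact_mod_cast (by omega : 1 < x))
  obtain ⟨l, hl'⟩ : ∃ l, l = Real.log (x : ℝ) := ⟨_, rfl⟩
  have h1 : (J : ℝ) * Real.log 2 ≤ l := by
    rw [← Real.log_pow, hl']
    apply Real.log_le_log (by positivity)
    exact_mod_cast hJx
  have h2 : l ≤ ((J : ℝ) + 1) * Real.log 2 := by
    have : ((J : ℝ) + 1) * Real.log 2 = Real.log ((2 : ℝ) ^ (J + 1)) := by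
      rw [Real.log_pow]; push_cast; ring
    rw [this, hl']
    apply Real.log_le_log hxr
    exact_mod_cast hxJ.le
  have a1 := (abs_le.1 (hj₀ J hJn)).1
  have a2 := (abs_le.1 (hj₀ (J + 1) (by omega))).2
  obtain ⟨G, hG⟩ : ∃ G : ℕ → Set Ω, G = fun i : ℕ => S (Q b (2 * i + 3)) := ⟨_, rfl⟩
  rw [← hG] at a1 a2 ⊢
  have a3 : cnt (IX (2 ^ J)) G ω ≤ cnt (IX x) G ω := cnt_mono' hJx
  have a4 : cnt (IX x) G ω ≤ cnt (IX (2 ^ (J + 1))) G ω := cnt_mono' hxJ.le
  rw [← hl'] at hl hlx ⊢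
  push_cast at a2
  obtain ⟨Cx, hCx⟩ : ∃ Cx, Cx = cnt (IX x) G ω := ⟨_, rfl⟩
  rw [← hCx] at a3 a4 ⊢
  obtain ⟨c, hcc⟩ : ∃ c, c = cc b := ⟨_, rfl⟩
  rw [← hcc] at a1 a2 hlx hδ1 hc ⊢
  obtain ⟨g, hg⟩ : ∃ g, g = Real.log 2 := ⟨_, rfl⟩
  rw [← hg] at a1 a2 hlx hδ1 hδ2 h1 h2 hl2
  rw [div_lt_iff₀ hε] at hlx
  have hJ0 : (0 : ℝ) ≤ J := Nat.cast_nonneg _
  have b1 : (c * g - δ) * J ≤ Cx := by linarith
  have b2 : Cx ≤ (c * g + δ) * (J + 1) := by linarith
  have hcg : 0 < c * g := by positivity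
  rw [Real.dist_eq, abs_lt]
  constructor
  · rw [lt_sub_iff_add_lt, lt_div_iff₀ hl]
    refine lt_of_lt_of_le ?_ b1
    -- `(c - ε) l < (c g - δ) J`, with `l ≤ (J + 1) g`
    have c1 : (c * g - δ) * (l - g) ≤ (c * g - δ) * (J * g) :=
      mul_le_mul_of_nonneg_left (by linarith) (by linarith)
    have c2 : g * ((-ε + c) * l) < (c * g - δ) * (l - g) := by
      have d1 : δ * l ≤ ε * g / 2 * l := mul_le_mul_of_nonneg_right hδ2 hl.le
      have d2 : 0 < δ * g := by positivity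
      have d3 : g * (c * g + δ) * 2 < g * (l * ε) := by
        have := mul_lt_mul_of_pos_left hlx hl2
        linarith
      nlinarith
    have c3 : g * ((-ε + c) * l) < g * ((c * g - δ) * J) := by
      calc g * ((-ε + c) * l) < (c * g - δ) * (l - g) := c2
        _ ≤ (c * g - δ) * (J * g) := c1
        _ = g * ((c * g - δ) * J) := by ring
    exact lt_of_mul_lt_mul_left c3 hl2.le
  · rw [sub_lt_iff_lt_add, div_lt_iff₀ hl]
    refine lt_of_le_of_lt b2 ?_
    have c1 : (c * g + δ) * (J * g) ≤ (c * g + δ) * l :=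
      mul_le_mul_of_nonneg_left h1 (by positivity)
    have c2 : (c * g + δ) * (l + g) < g * ((ε + c) * l) := by
      have d1 : δ * l ≤ ε * g / 2 * l := mul_le_mul_of_nonneg_right hδ2 hl.le
      have d3 : g * (c * g + δ) * 2 < g * (l * ε) := by
        have := mul_lt_mul_of_pos_left hlx hl2
        linarith
      nlinarith
    have c3 : g * ((c * g + δ) * (J + 1)) < g * ((ε + c) * l) := by
      calc g * ((c * g + δ) * (J + 1)) = (c * g + δ) * (J * g) + (c * g + δ) * g := by ring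
        _ ≤ (c * g + δ) * l + (c * g + δ) * g := by linarith
        _ = (c * g + δ) * (l + g) := by ring
        _ < g * ((ε + c) * l) := c2
    exact lt_of_mul_lt_mul_left c3 hl2.le

end Pool.Agent.T2H62.MO
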