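import Mathlib

set_option autoImplicit false

/-! # The numbers `(b ^ n + 1) / (b + 1)` and their prime factors -/

namespace Pool.Agent.T2H62.MO

open Finset

/-- the number `(b ^ n + 1) / (b + 1)` -/
def Q (b n : ℕ) : ℕ := (b ^ n + 1) / (b + 1)

theorem Q_mul (b : ℕ) {n : ℕ} (hn : Odd n) : Q b n * (b + 1) = b ^ n + 1 := by
  unfold Q
  have h := Odd.nat_add_dvd_pow_add_pow b 1 hn
  rw [one_pow] at h
  exact Nat.div_mul_cancel h

theorem Q_int (b : ℕ) {n : ℕ} (hn : Odd n) : (Q b n : ℤ) = ∑ i ∈ range n, (-(b : ℤ)) ^ i := by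
  have h1 := geom_sum_mul (-(b : ℤ)) n
  rw [hn.neg_pow] at h1
  have h2 : ((Q b n : ℕ) : ℤ) * ((b : ℤ) + 1) = (b : ℤ) ^ n + 1 := by exact_mod_cast Q_mul b hn
  have h3 : ((Q b n : ℤ) - ∑ i ∈ range n, (-(b : ℤ)) ^ i) * ((b : ℤ) + 1) = 0 := by linear_combination h2 + h1
  rcases mul_eq_zero.1 h3 with h4 | h4
  · linarith
  · exfalso
    have : (0 : ℤ) ≤ b := Int.natCast_nonneg b
    linarith

/-- the prime factors of `Q b p` are `1` modulo `p` -/
theorem factor_form {b p q : ℕ} (hp : p.Prime) (hp2 : p ≠ 2) (hpb : ¬ p ∣ b + 1) (hq : q.Prime) (hd : q ∣ Q b p) :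
    ∃ k, 1 ≤ k ∧ q = k * p + 1 := by
  have := Fact.mk hq
  have hodd : Odd p := hp.odd_of_ne_two hp2
  obtain ⟨x, hx⟩ : ∃ x : ZMod q, x = -(b : ZMod q) := ⟨_, rfl⟩
  have hQ0 : ((Q b p : ℕ) : ZMod q) = 0 := (ZMod.natCast_eq_zero_iff _ _).2 hd
  have h1 : x ^ p = 1 := by
    have h2 := congrArg (fun m : ℕ => (m : ZMod q)) (Q_mul b hodd)
    rw [Nat.cast_mul, hQ0, zero_mul] at h2
    push_cast at h2
    rw [hx, hodd.neg_pow]
    linear_combination h2
  have h2 : orderOf x ∣ p := orderOf_dvd_of_pow_eq_one h1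
  rcases (Nat.dvd_prime hp).1 h2 with h3 | h3
  · exfalso
    have h4 : x = 1 := orderOf_eq_one_iff.1 h3
    have h5 := congrArg (fun m : ℤ => (m : ZMod q)) (Q_int b hodd)
    push_cast at h5
    rw [hQ0, ← hx, h4] at h5
    simp only [one_pow, sum_const, card_range, nsmul_eq_mul, mul_one] at h5
    have h6 : q ∣ p := (ZMod.natCast_eq_zero_iff _ _).1 h5.symm
    have h7 : q = p := (Nat.prime_dvd_prime_iff_eq hq hp).1 h6
    apply hpb
    rw [← h7, ← ZMod.natCast_eq_zero_iff]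
    push_cast
    rw [hx] at h4
    linear_combination -h4
  · have hx0 : x ≠ 0 := by
      intro h0
      rw [h0, zero_pow hp.ne_zero] at h1
      exact zero_ne_one h1
    have h4 := ZMod.orderOf_dvd_card_sub_one hx0
    rw [h3] at h4
    obtain ⟨k, hk⟩ := h4
    have hq1 := hq.one_lt
    refine ⟨k, ?_, ?_⟩
    · rcases Nat.eq_zero_or_pos k with h5 | h5
      · rw [h5, mul_zero] at hk
        omega
      · exact h5
    · rw [mul_comm k p, ← hk]
      omega

theorem Q_pos {b n : ℕ} (_hb : 2 ≤ b) (hn : Odd n) : 1 ≤ Q b n := by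
  have h := Q_mul b hn
  rcases Nat.eq_zero_or_pos (Q b n) with h1 | h1
  · rw [h1, zero_mul] at h
    omega
  · exact h1

/-- the size -/
theorem Q_log {b n : ℕ} (hb : 2 ≤ b) (hn : Odd n) :
    n * Real.log b - Real.log (b + 1) ≤ Real.log (Q b n) ∧ Real.log (Q b n) ≤ n * Real.log b := by
  have hb0 : (0 : ℝ) < b := by exact_mod_cast (by omega : 0 < b)
  have h : ((Q b n : ℕ) : ℝ) * ((b : ℝ) + 1) = (b : ℝ) ^ n + 1 := by exact_mod_cast Q_mul b hn
  have hQ : (0 : ℝ) < Q b n := by exact_mod_cast Q_pos hb hn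
  have hbn : (1 : ℝ) ≤ (b : ℝ) ^ n := one_le_pow₀ (by exact_mod_cast (by omega : 1 ≤ b))
  have hn' : Real.log ((b : ℝ) ^ n) = n * Real.log b := Real.log_pow _ _
  rw [← hn']
  constructor
  · rw [sub_le_iff_le_add, ← Real.log_mul hQ.ne' (by positivity), h]
    exact Real.log_le_log (by positivity) (by linarith)
  · apply Real.log_le_log hQ
    have hb1 : (1 : ℝ) ≤ b := by exact_mod_cast (by omega : 1 ≤ b)
    have h5 : ((Q b n : ℕ) : ℝ) * ((b : ℝ) + 1) ≤ (b : ℝ) ^ n * ((b : ℝ) + 1) := by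
      rw [h]
      nlinarith
    exact le_of_mul_le_mul_right h5 (by positivity)

theorem Q_mono {b m n : ℕ} (hb : 2 ≤ b) (hm : Odd m) (hn : Odd n) (h : m < n) : Q b m < Q b n := by
  have h1 := Q_mul b hm
  have h2 := Q_mul b hn
  have h3 : b ^ m < b ^ n := Nat.pow_lt_pow_right (by omega) h
  by_contra h4
  push Not at h4
  have := Nat.mul_le_mul_right (b + 1) h4
  omega

end Pool.Agent.T2H62.MO
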