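import Pool.Agent.T2H62.LinG
import Pool.Agent.X32.Uni.PairK
import Pool.Agent.T2H62.MD.C

set_option autoImplicit false

/-! # Primes `p` such that `k p + 1` is prime are rare -/

namespace Pool.Agent.T2H62.MO

open Finset Filter Topology
open Pool.Agent.X32.Uni (AdmL almost_prime)
open Pool.Agent.T2H62.LG (shortG GA GT)
open Pool.Agent.X32.Fam (Almost)

theorem adm_pair (k : ℕ) (hk : 2 ∣ k) : AdmL ![(1 : ℤ), (k : ℤ)] ![(0 : ℤ), 1] := by
  intro p hp
  have hp2 := hp.two_le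
  by_cases h : (p : ℤ) ∣ (k : ℤ) + 1
  · refine ⟨-1, fun i => ?_⟩
    fin_cases i
    · simp only [Fin.zero_eta, Matrix.cons_val_zero]
      intro h1
      have h2 : (p : ℤ) ∣ 1 := by
        have := (dvd_neg (α := ℤ)).2 h1
        simpa using this
      have h3 := Int.le_of_dvd one_pos h2
      omega
    · change ¬ (p : ℤ) ∣ (k : ℤ) * -1 + 1
      intro h1
      have h2 : (p : ℤ) ∣ 2 := by
        have := dvd_add h h1
        have e : (k : ℤ) + 1 + ((k : ℤ) * -1 + 1) = 2 := by ring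
        rwa [e] at this
      have h3 : (p : ℤ) ∣ ((2 : ℕ) : ℤ) := by exact_mod_cast h2
      have h4 : p = 2 := (Nat.prime_dvd_prime_iff_eq hp Nat.prime_two).1 (Int.natCast_dvd_natCast.1 h3)
      rw [h4] at h
      have h5 : (2 : ℕ) ∣ k + 1 := by
        have : ((2 : ℕ) : ℤ) ∣ ((k + 1 : ℕ) : ℤ) := by push_cast; exact_mod_cast h
        exact Int.natCast_dvd_natCast.1 this
      omega
  · refine ⟨1, fun i => ?_⟩
    fin_cases i
    · simp only [Fin.zero_eta, Matrix.cons_val_zero]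
      intro h1
      have h2 : (p : ℤ) ∣ 1 := by simpa using h1
      have h3 := Int.le_of_dvd one_pos h2
      omega
    · change ¬ (p : ℤ) ∣ (k : ℤ) * 1 + 1
      rw [mul_one]
      exact h

open scoped Classical in
theorem pair_up (k : ℕ) (hk : 1 ≤ k) : ∃ K : ℝ, 0 < K ∧ ∀ᶠ n : ℕ in atTop,
    (((Ioc n (2 * n)).filter (fun p => p.Prime ∧ (k * p + 1).Prime)).card : ℝ) ≤ K * n / Real.log n ^ 2 := by
  by_cases hk2 : 2 ∣ k
  · obtain ⟨C, t, ht, κ, K, hκ, hK, ⟨X₀, H⟩, -⟩ := shortG ![(1 : ℤ), (k : ℤ)] ![(0 : ℤ), 1] (by norm_num) (adm_pair k hk2)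
      (by
        intro l
        fin_cases l
        · simp
        · simp; omega)
      (by
        intro l m hlm
        fin_cases l <;> fin_cases m <;> simp at hlm ⊢)
      ∅ (by simp) (by simp) (1 / 2) (by norm_num)
    have hbase : ∀ n : ℕ, 2 ≤ n → ((2 * n : ℕ) : ℝ) ^ (1 / 2 : ℝ) ≤ (n : ℝ) := by
      intro n hn
      have hn0 : (0 : ℝ) ≤ n := Nat.cast_nonneg _
      rw [← Real.sqrt_eq_rpow, Real.sqrt_le_left hn0]
      have : (2 : ℝ) ≤ n := by exact_mod_cast hn
      push_cast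
      nlinarith
    -- `t ≥ 2`
    have ht2 : 2 ≤ t := by
      by_contra hcon
      have ht1 : t = 1 := by omega
      obtain ⟨n, hn⟩ : ∃ n, n = X₀ + 3 := ⟨_, rfl⟩
      have h1 := (H (2 * n) (by omega) n (2 * n) le_rfl (by
        have := hbase n (by omega)
        push_cast at this ⊢
        linarith)).1
      have hn0 : (0 : ℝ) < n := by exact_mod_cast (by omega : 0 < n)
      have hl : 0 < Real.log ((2 * n : ℕ) : ℝ) := Real.log_pos (by exact_mod_cast (by omega : 1 < 2 * n))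
      have h2 : 0 < κ * ((((2 * n : ℕ) : ℕ) : ℝ) - n) / Real.log ((2 * n : ℕ) : ℝ) ^ 2 := by
        apply div_pos _ (by positivity)
        apply mul_pos hκ
        push_cast
        linarith
      have h3 : (0 : ℝ) < ((GT ![(1 : ℤ), (k : ℤ)] ![(0 : ℤ), 1] ∅ C t (2 * n) n (2 * n)).card : ℝ) := lt_of_lt_of_le h2 h1
      have h4 : 0 < (GT ![(1 : ℤ), (k : ℤ)] ![(0 : ℤ), 1] ∅ C t (2 * n) n (2 * n)).card := by exact_mod_cast h3
      rw [card_pos] at h4
      obtain ⟨m, hm⟩ := h4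
      unfold GT at hm
      rw [mem_filter, mem_Ioc] at hm
      have h5 := hm.2.1 0
      simp only [Matrix.cons_val_zero, one_mul, add_zero] at h5
      obtain ⟨-, -, h6⟩ := h5
      have hm1 : m ≠ 1 := by omega
      obtain ⟨q, hq, hqm⟩ := Nat.exists_prime_and_dvd hm1
      have h7 := h6 q hq (Int.natCast_dvd_natCast.2 hqm)
      rw [ht1] at h7
      norm_num at h7
      have h8 : 2 * n < q := by exact_mod_cast h7
      have h9 := Nat.le_of_dvd (by omega) hqm
      omega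
    refine ⟨K, hK, ?_⟩
    filter_upwards [eventually_ge_atTop (X₀ + 3)] with n hn
    have hn0 : (0 : ℝ) < n := by exact_mod_cast (by omega : 0 < n)
    have hn1 : (1 : ℝ) < n := by exact_mod_cast (by omega : 1 < n)
    have hbn := hbase n (by omega)
    have h1 := (H (2 * n) (by omega) n (2 * n) le_rfl (by push_cast at hbn ⊢; linarith)).2
    have hy : ((2 * n : ℕ) : ℝ) ^ (1 / (t : ℝ)) ≤ (n : ℝ) := by
      refine le_trans ?_ hbn
      apply Real.rpow_le_rpow_of_exponent_le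
      · exact_mod_cast (by omega : 1 ≤ 2 * n)
      · have : (2 : ℝ) ≤ t := by exact_mod_cast ht2
        exact one_div_le_one_div_of_le (by norm_num) this
    have hsub : (Ioc n (2 * n)).filter (fun p => p.Prime ∧ (k * p + 1).Prime) ⊆
        GA ![(1 : ℤ), (k : ℤ)] ![(0 : ℤ), 1] t (2 * n) n (2 * n) := by
      intro p hp
      rw [mem_filter, mem_Ioc] at hp
      unfold GA
      rw [mem_filter, mem_Ioc]
      refine ⟨hp.1, fun l => ?_⟩
      have hnp : (n : ℝ) < p := by exact_mod_cast hp.1.1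
      fin_cases l
      · simp only [Fin.zero_eta, Matrix.cons_val_zero, one_mul, add_zero]
        exact (almost_prime ht hp.2.1).2 (by linarith)
      · change Pool.Agent.X32.Fam.Almost t _ ((k : ℤ) * (p : ℤ) + 1)
        have e : (k : ℤ) * (p : ℤ) + 1 = ((k * p + 1 : ℕ) : ℤ) := by push_cast; ring
        rw [e]
        refine (almost_prime ht hp.2.2).2 (lt_of_lt_of_le (lt_of_le_of_lt hy hnp) ?_)
        have : p ≤ k * p + 1 := by nlinarith
        exact_mod_cast this
    have h2 : (((Ioc n (2 * n)).filter (fun p => p.Prime ∧ (k * p + 1).Prime)).card : ℝ) ≤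
        ((GA ![(1 : ℤ), (k : ℤ)] ![(0 : ℤ), 1] t (2 * n) n (2 * n)).card : ℝ) := by exact_mod_cast card_le_card hsub
    refine (h2.trans h1).trans ?_
    have hl : 0 < Real.log (n : ℝ) := Real.log_pos hn1
    have e1 : (((2 * n : ℕ) : ℕ) : ℝ) - n = n := by push_cast; ring
    rw [e1]
    apply div_le_div_of_nonneg_left (by positivity) (by positivity)
    apply pow_le_pow_left₀ hl.le
    apply Real.log_le_log hn0
    push_cast
    linarith
  · refine ⟨1, one_pos, ?_⟩
    filter_upwards [eventually_ge_atTop 3] with n hn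
    have h0 : (Ioc n (2 * n)).filter (fun p => p.Prime ∧ (k * p + 1).Prime) = ∅ := by
      rw [filter_eq_empty_iff]
      rintro p hp ⟨h1, h2⟩
      rw [mem_Ioc] at hp
      have h3 : p % 2 = 1 := by
        rcases h1.eq_two_or_odd with h4 | h4
        · omega
        · exact h4
      have h4 : 2 ∣ k * p + 1 := by
        have hk1 : k % 2 = 1 := by omega
        have : (k * p) % 2 = 1 := by rw [Nat.mul_mod, hk1, h3]
        omega
      have h5 : 2 = k * p + 1 := (Nat.prime_dvd_prime_iff_eq Nat.prime_two h2).1 h4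
      have : 1 * p ≤ k * p := Nat.mul_le_mul_right p hk
      omega
    rw [h0]
    have hl : 0 < Real.log (n : ℝ) := Real.log_pos (by exact_mod_cast (by omega : 1 < n))
    simp only [card_empty, Nat.cast_zero]
    positivity

/-- `p` is bad -/
def Bad (K p : ℕ) : Prop := ∃ k ∈ Icc 1 K, (k * p + 1).Prime

open scoped Classical in
/-- the weight of the bad primes -/
noncomputable def fb (K p : ℕ) : ℝ := if p.Prime ∧ Bad K p then Real.log p / p else 0

theorem fb_nonneg (K p : ℕ) : 0 ≤ fb K p := by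
  unfold fb
  split_ifs
  · exact div_nonneg (Real.log_natCast_nonneg _) (Nat.cast_nonneg _)
  · exact le_rfl

/-- the block sums tend to zero -/
theorem bad_block (K : ℕ) : Tendsto (fun j : ℕ => ∑ p ∈ Ioc (2 ^ j) (2 ^ (j + 1)), fb K p) atTop (𝓝 0) := by
  classical
  have hex : ∀ k : ℕ, ∃ C : ℝ, 0 < C ∧ ∀ᶠ n : ℕ in atTop, 1 ≤ k →
      (((Ioc n (2 * n)).filter (fun p => p.Prime ∧ (k * p + 1).Prime)).card : ℝ) ≤ C * n / Real.log n ^ 2 := by
    intro k
    rcases Nat.eq_zero_or_pos k with h | h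
    · exact ⟨1, one_pos, Eventually.of_forall fun n h1 => by omega⟩
    · obtain ⟨C, hC, h1⟩ := pair_up k h
      exact ⟨C, hC, h1.mono fun n h2 _ => h2⟩
  choose C hC hC2 using hex
  obtain ⟨D, hD⟩ : ∃ D, D = ∑ k ∈ Icc 1 K, C k := ⟨_, rfl⟩
  have hD0 : 0 ≤ D := by rw [hD]; exact sum_nonneg fun k _ => (hC k).le
  have hall : ∀ᶠ n : ℕ in atTop, ∀ k ∈ Icc 1 K,
      (((Ioc n (2 * n)).filter (fun p => p.Prime ∧ (k * p + 1).Prime)).card : ℝ) ≤ C k * n / Real.log n ^ 2 := by
    rw [eventually_all_finset]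
    intro k hk
    exact (hC2 k).mono fun n h => h (mem_Icc.1 hk).1
  have hpow : Tendsto (fun j : ℕ => 2 ^ j) atTop atTop := tendsto_pow_atTop_atTop_of_one_lt (by norm_num)
  have hl2 : 0 < Real.log 2 := Real.log_pos (by norm_num)
  have hbound : ∀ᶠ j : ℕ in atTop, ∑ p ∈ Ioc (2 ^ j) (2 ^ (j + 1)), fb K p ≤ 2 * D / Real.log 2 * (1 / (j : ℝ)) := by
    filter_upwards [hpow.eventually hall, eventually_ge_atTop 1] with j h1 h2
    have hj0 : (0 : ℝ) < j := by exact_mod_cast h2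
    have hj1 : (1 : ℝ) ≤ j := by exact_mod_cast h2
    have h2j : (0 : ℝ) < (2 : ℝ) ^ j := by positivity
    have hsub : (Ioc (2 ^ j) (2 ^ (j + 1))).filter (fun p => p.Prime ∧ Bad K p) ⊆
        (Icc 1 K).biUnion (fun k => (Ioc (2 ^ j) (2 * 2 ^ j)).filter (fun p => p.Prime ∧ (k * p + 1).Prime)) := by
      intro p hp
      rw [mem_filter] at hp
      obtain ⟨h3, h4, k, hk, h5⟩ := hp
      rw [mem_biUnion]
      refine ⟨k, hk, mem_filter.2 ⟨?_, h4, h5⟩⟩
      rwa [pow_succ, mul_comm] at h3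
    have hcard : (((Ioc (2 ^ j) (2 ^ (j + 1))).filter (fun p => p.Prime ∧ Bad K p)).card : ℝ) ≤
        D * 2 ^ j / (j * Real.log 2) ^ 2 := by
      have h3 : (((Ioc (2 ^ j) (2 ^ (j + 1))).filter (fun p => p.Prime ∧ Bad K p)).card : ℝ) ≤
          ∑ k ∈ Icc 1 K, (((Ioc (2 ^ j) (2 * 2 ^ j)).filter (fun p => p.Prime ∧ (k * p + 1).Prime)).card : ℝ) := by
        exact_mod_cast (card_le_card hsub).trans card_biUnion_le
      refine h3.trans ((sum_le_sum fun k hk => h1 k hk).trans (le_of_eq ?_))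
      rw [hD, sum_mul, sum_div]
      refine sum_congr rfl fun k _ => ?_
      push_cast
      rw [Real.log_pow]
    have hterm : ∀ p ∈ (Ioc (2 ^ j) (2 ^ (j + 1))).filter (fun p => p.Prime ∧ Bad K p),
        Real.log p / p ≤ ((j : ℝ) + 1) * Real.log 2 / 2 ^ j := by
      intro p hp
      rw [mem_filter, mem_Ioc] at hp
      have h3 : (2 : ℝ) ^ j ≤ p := by exact_mod_cast hp.1.1.le
      have h4 : (p : ℝ) ≤ 2 ^ (j + 1) := by exact_mod_cast hp.1.2
      have h5 : Real.log p ≤ ((j : ℝ) + 1) * Real.log 2 := by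
        have := Real.log_le_log (by linarith) h4
        rw [Real.log_pow] at this
        push_cast at this
        exact this
      exact div_le_div₀ (by positivity) h5 h2j h3
    have hsum : ∑ p ∈ Ioc (2 ^ j) (2 ^ (j + 1)), fb K p =
        ∑ p ∈ (Ioc (2 ^ j) (2 ^ (j + 1))).filter (fun p => p.Prime ∧ Bad K p), Real.log p / p := by
      unfold fb
      rw [sum_filter]
    rw [hsum]
    refine (sum_le_card_nsmul _ _ _ hterm).trans ?_
    rw [nsmul_eq_mul]
    calc (((Ioc (2 ^ j) (2 ^ (j + 1))).filter (fun p => p.Prime ∧ Bad K p)).card : ℝ) *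
          (((j : ℝ) + 1) * Real.log 2 / 2 ^ j) ≤ D * 2 ^ j / (j * Real.log 2) ^ 2 * (((j : ℝ) + 1) * Real.log 2 / 2 ^ j) :=
          mul_le_mul_of_nonneg_right hcard (by positivity)
      _ = D * ((j : ℝ) + 1) / (j ^ 2 * Real.log 2) := by
          field_simp
      _ ≤ D * (2 * j) / (j ^ 2 * Real.log 2) := by
          apply div_le_div_of_nonneg_right _ (by positivity)
          apply mul_le_mul_of_nonneg_left _ hD0
          linarith
      _ = 2 * D / Real.log 2 * (1 / (j : ℝ)) := by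
          field_simp
  have h0 : Tendsto (fun j : ℕ => 2 * D / Real.log 2 * (1 / (j : ℝ))) atTop (𝓝 0) := by
    have := (tendsto_one_div_atTop_nhds_zero_nat (𝕜 := ℝ)).const_mul (2 * D / Real.log 2)
    rwa [mul_zero] at this
  refine tendsto_of_tendsto_of_tendsto_of_le_of_le' tendsto_const_nhds h0
    (Eventually.of_forall fun j => sum_nonneg fun p _ => fb_nonneg K p) hbound

/-- the bad primes are rare -/
theorem bad_sum (K : ℕ) (δ : ℝ) (hδ : 0 < δ) : ∀ᶠ x : ℕ in atTop, ∑ p ∈ Ioc 1 x, fb K p ≤ δ * Real.log x := by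
  have h1 := (bad_block K).cesaro
  have h2 : ∀ᶠ n : ℕ in atTop, ((n : ℝ))⁻¹ * ∑ i ∈ range n, ∑ p ∈ Ioc (2 ^ i) (2 ^ (i + 1)), fb K p < δ / 3 :=
    h1.eventually (eventually_lt_nhds (by positivity))
  have hid : ∀ n : ℕ, ∑ p ∈ Ioc 1 (2 ^ n), fb K p = ∑ i ∈ range n, ∑ p ∈ Ioc (2 ^ i) (2 ^ (i + 1)), fb K p := by
    intro n
    induction n with
    | zero => simp
    | succ n ih =>
      rw [sum_range_succ, ← ih, sum_Ioc_consecutive _ Nat.one_le_two_pow
        (Nat.pow_le_pow_right (by norm_num) (Nat.le_succ n))]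
  obtain ⟨n₀, hn₀⟩ := eventually_atTop.1 h2
  filter_upwards [eventually_ge_atTop (2 ^ n₀ + 4)] with x hx
  obtain ⟨J, hJ⟩ : ∃ J, J = Nat.log 2 x := ⟨_, rfl⟩
  have hpos : 0 < 2 ^ n₀ := by positivity
  have hx0 : x ≠ 0 := by omega
  have hJx : 2 ^ J ≤ x := by rw [hJ]; exact Nat.pow_log_le_self 2 hx0
  have hxJ : x < 2 ^ (J + 1) := by rw [hJ]; exact Nat.lt_pow_succ_log_self (by norm_num) x
  have hJn : n₀ ≤ J := by
    rw [hJ]
    apply Nat.le_log_of_pow_le (by norm_num)
    omega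
  have h3 := hn₀ (J + 1) (by omega)
  rw [← hid] at h3
  have h4 : ∑ p ∈ Ioc 1 x, fb K p ≤ ∑ p ∈ Ioc 1 (2 ^ (J + 1)), fb K p :=
    sum_le_sum_of_subset_of_nonneg (Ioc_subset_Ioc_right hxJ.le) fun p _ _ => fb_nonneg K p
  have hJ0 : (0 : ℝ) < ((J + 1 : ℕ) : ℝ) := by positivity
  rw [inv_mul_lt_iff₀ hJ0] at h3
  have hxr : (4 : ℝ) ≤ x := by exact_mod_cast (by omega : 4 ≤ x)
  have h5 : ((J + 1 : ℕ) : ℝ) ≤ 3 * Real.log x := by
    have h6 : (J : ℝ) * Real.log 2 ≤ Real.log x := by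
      rw [← Real.log_pow]
      apply Real.log_le_log (by positivity)
      exact_mod_cast hJx
    have h7 := Real.log_two_gt_d9
    have h8 : 2 * Real.log 2 ≤ Real.log x := by
      have : 2 * Real.log 2 = Real.log 4 := by
        rw [show (4 : ℝ) = 2 ^ 2 by norm_num, Real.log_pow]
        norm_num
      rw [this]
      exact Real.log_le_log (by norm_num) hxr
    have h9 : (0 : ℝ) ≤ J := Nat.cast_nonneg _
    push_cast
    nlinarith
  calc ∑ p ∈ Ioc 1 x, fb K p ≤ ((J + 1 : ℕ) : ℝ) * (δ / 3) := h4.trans h3.le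
    _ ≤ 3 * Real.log x * (δ / 3) := mul_le_mul_of_nonneg_right h5 (by positivity)
    _ = δ * Real.log x := by ring

end Pool.Agent.T2H62.MO
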