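import Pool.Agent.T2H62.MO.A
import Pool.Agent.T2H62.MO.B
import Pool.Agent.T2H62.MN.C
import Pool.Agent.Helper923.HMertens

set_option autoImplicit false

/-! # The probabilities of the numbers `(b ^ p + 1) / (b + 1)` -/

namespace Pool.Agent.T2H62.MO

open Finset Filter Topology MeasureTheory ProbabilityTheory
open Pool.Agent.T2H53.GW
open Pool.Agent.H305R2 (VV VV_tendsto)
open Pool.Agent.T2H62.MD

/-- the limit of the weights -/
theorem VV_lim (A L : ℝ) (hA : 0 < A) (hL : 0 < L) (u : ℕ → ℝ) (hu : Tendsto (fun n : ℕ => u n / n) atTop (𝓝 L)) :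
    Tendsto (fun n : ℕ => VV ⌊A * u n⌋₊ / u n / (Real.log n / n)) atTop
      (𝓝 (Real.exp Real.eulerMascheroniConstant / L)) := by
  have hTn : Tendsto (fun n : ℕ => (n : ℝ)) atTop atTop := tendsto_natCast_atTop_atTop
  have hlog : Tendsto (fun n : ℕ => Real.log (n : ℝ)) atTop atTop := Real.tendsto_log_atTop.comp hTn
  have huT : Tendsto u atTop atTop := by
    have h1 : Tendsto (fun n : ℕ => u n / n * n) atTop atTop := Tendsto.pos_mul_atTop hL hu hTn
    refine h1.congr' ?_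
    filter_upwards [eventually_ge_atTop 1] with n hn
    have : (n : ℝ) ≠ 0 := by exact_mod_cast (by omega : n ≠ 0)
    field_simp
  have hAu : Tendsto (fun n => A * u n) atTop atTop := huT.const_mul_atTop hA
  have hz : Tendsto (fun n => ⌊A * u n⌋₊) atTop atTop := tendsto_nat_floor_atTop.comp hAu
  have hzr : Tendsto (fun n : ℕ => (⌊A * u n⌋₊ : ℝ) / n) atTop (𝓝 (A * L)) := by
    have h1 : Tendsto (fun n : ℕ => (⌊A * u n⌋₊ : ℝ) / (A * u n) * (A * (u n / n))) atTop (𝓝 (1 * (A * L))) :=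
      ((tendsto_nat_floor_div_atTop (R := ℝ)).comp hAu).mul (hu.const_mul A)
    rw [one_mul] at h1
    refine h1.congr' ?_
    filter_upwards [huT.eventually_gt_atTop 0, eventually_ge_atTop 1] with n h2 h3
    have : (n : ℝ) ≠ 0 := by exact_mod_cast (by omega : n ≠ 0)
    field_simp
  have hV : Tendsto (fun n : ℕ => VV ⌊A * u n⌋₊ / Real.log (⌊A * u n⌋₊ : ℝ)) atTop
      (𝓝 (Real.exp Real.eulerMascheroniConstant)) := VV_tendsto.comp hz
  have hll : Tendsto (fun n : ℕ => Real.log (⌊A * u n⌋₊ : ℝ) / Real.log n) atTop (𝓝 1) := by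
    have h1 : Tendsto (fun n : ℕ => Real.log ((⌊A * u n⌋₊ : ℝ) / n) / Real.log n) atTop (𝓝 0) :=
      (hzr.log (by positivity)).div_atTop hlog
    have h2 : Tendsto (fun n : ℕ => Real.log ((⌊A * u n⌋₊ : ℝ) / n) / Real.log n + 1) atTop (𝓝 (0 + 1)) :=
      h1.add tendsto_const_nhds
    rw [zero_add] at h2
    refine h2.congr' ?_
    filter_upwards [hz.eventually_ge_atTop 1, eventually_ge_atTop 2] with n h3 h4
    have h5 : (0 : ℝ) < ⌊A * u n⌋₊ := by exact_mod_cast h3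
    have h6 : (0 : ℝ) < n := by exact_mod_cast (by omega : 0 < n)
    have h7 : 0 < Real.log (n : ℝ) := Real.log_pos (by exact_mod_cast (by omega : 1 < n))
    rw [Real.log_div h5.ne' h6.ne']
    field_simp
    ring
  have hnu : Tendsto (fun n : ℕ => (n : ℝ) / u n) atTop (𝓝 L⁻¹) := by
    refine (hu.inv₀ hL.ne').congr fun n => ?_
    rw [inv_div]
  have h := (hV.mul hll).mul hnu
  rw [mul_one] at h
  rw [div_eq_mul_inv (Real.exp Real.eulerMascheroniConstant) L]
  refine h.congr' ?_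
  filter_upwards [hz.eventually_ge_atTop 2, eventually_ge_atTop 2, huT.eventually_gt_atTop 0] with n h3 h4 h5
  have h5' : (0 : ℝ) < Real.log (⌊A * u n⌋₊ : ℝ) := Real.log_pos (by exact_mod_cast (by omega : 1 < ⌊A * u n⌋₊))
  have h6 : (0 : ℝ) < n := by exact_mod_cast (by omega : 0 < n)
  have h7 : 0 < Real.log (n : ℝ) := Real.log_pos (by exact_mod_cast (by omega : 1 < n))
  field_simp

variable {b : ℕ}

/-- the logarithms, filled up at the even integers -/
noncomputable def lu (b n : ℕ) : ℝ := if n % 2 = 1 then Real.log (Q b n) else n * Real.log b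

theorem lu_odd {n : ℕ} (hn : n % 2 = 1) : lu b n = Real.log (Q b n) := if_pos hn

theorem lu_lim (hb : 2 ≤ b) : Tendsto (fun n : ℕ => lu b n / n) atTop (𝓝 (Real.log b)) := by
  have hTn : Tendsto (fun n : ℕ => (n : ℝ)) atTop atTop := tendsto_natCast_atTop_atTop
  have h0 : 0 ≤ Real.log ((b : ℝ) + 1) := Real.log_nonneg (by linarith [Nat.cast_nonneg (α := ℝ) b])
  have hbd : ∀ n : ℕ, n * Real.log b - Real.log (b + 1) ≤ lu b n ∧ lu b n ≤ n * Real.log b := by
    intro n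
    unfold lu
    split_ifs with h
    · exact Q_log hb (Nat.odd_iff.2 h)
    · constructor <;> linarith
  have h1 : Tendsto (fun n : ℕ => Real.log b - Real.log ((b : ℝ) + 1) / n) atTop (𝓝 (Real.log b - 0)) :=
    tendsto_const_nhds.sub (tendsto_const_nhds.div_atTop hTn)
  rw [sub_zero] at h1
  refine tendsto_of_tendsto_of_tendsto_of_le_of_le' h1 tendsto_const_nhds ?_ ?_
  · filter_upwards [eventually_ge_atTop 1] with n hn
    have h6 : (0 : ℝ) < n := by exact_mod_cast hn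
    rw [le_div_iff₀ h6, sub_mul, div_mul_cancel₀ _ h6.ne']
    linarith [(hbd n).1]
  · filter_upwards [eventually_ge_atTop 1] with n hn
    have h6 : (0 : ℝ) < n := by exact_mod_cast hn
    rw [div_le_iff₀ h6]
    linarith [(hbd n).2]

/-- the constant -/
noncomputable def cc (b : ℕ) : ℝ := Real.exp Real.eulerMascheroniConstant / Real.log b

theorem cc_pos (hb : 2 ≤ b) : 0 < cc b := by
  unfold cc
  have : 0 < Real.log (b : ℝ) := Real.log_pos (by exact_mod_cast (by omega : 1 < b))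
  positivity

theorem weight_lim (A : ℝ) (hA : 0 < A) (hb : 2 ≤ b) (δ : ℝ) (hδ : 0 < δ) : ∀ᶠ n : ℕ in atTop, n % 2 = 1 →
    (cc b - δ) * (Real.log n / n) ≤ VV ⌊A * Real.log (Q b n)⌋₊ / Real.log (Q b n) ∧
      VV ⌊A * Real.log (Q b n)⌋₊ / Real.log (Q b n) ≤ (cc b + δ) * (Real.log n / n) := by
  have hL : 0 < Real.log (b : ℝ) := Real.log_pos (by exact_mod_cast (by omega : 1 < b))
  have h1 := VV_lim A (Real.log b) hA hL (lu b) (lu_lim hb)
  have h2 : ∀ᶠ n : ℕ in atTop, cc b - δ < VV ⌊A * lu b n⌋₊ / lu b n / (Real.log n / n) :=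
    h1.eventually (eventually_gt_nhds (by unfold cc; linarith))
  have h3 : ∀ᶠ n : ℕ in atTop, VV ⌊A * lu b n⌋₊ / lu b n / (Real.log n / n) < cc b + δ :=
    h1.eventually (eventually_lt_nhds (by unfold cc; linarith))
  filter_upwards [h2, h3, eventually_ge_atTop 2] with n h4 h5 h6 h7
  rw [lu_odd h7] at h4 h5
  have h8 : (0 : ℝ) < n := by exact_mod_cast (by omega : 0 < n)
  have h9 : 0 < Real.log (n : ℝ) := Real.log_pos (by exact_mod_cast (by omega : 1 < n))
  have h10 : 0 < Real.log (n : ℝ) / n := by positivity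
  rw [lt_div_iff₀ h10] at h4
  rw [div_lt_iff₀ h10] at h5
  exact ⟨h4.le, h5.le⟩

/-- the numbers tend to infinity -/
theorem Q_tendsto (hb : 2 ≤ b) (M : ℕ) : ∀ᶠ n : ℕ in atTop, n % 2 = 1 → M ≤ Q b n := by
  filter_upwards [eventually_ge_atTop (2 * M + 2)] with n hn hodd
  have h := Q_mul b (Nat.odd_iff.2 hodd)
  by_contra hcon
  push Not at hcon
  have h2 : b ^ n + 1 ≤ M * (b + 1) := by
    rw [← h]
    exact Nat.mul_le_mul_right _ hcon.le
  have h4 : 2 * M + 1 ≤ b ^ (n - 1) := by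
    calc 2 * M + 1 ≤ n - 1 := by omega
      _ ≤ 2 ^ (n - 1) := Nat.lt_two_pow_self.le
      _ ≤ b ^ (n - 1) := Nat.pow_le_pow_left hb _
  have h5 : b * (2 * M + 1) ≤ b ^ n := by
    have h6 : b ^ n = b * b ^ (n - 1) := by
      rw [← pow_succ']
      congr 1
      omega
    rw [h6]
    exact Nat.mul_le_mul_left b h4
  have h6 : M * 1 ≤ M * b := Nat.mul_le_mul_left M (by omega)
  have e1 : b * (2 * M + 1) = 2 * (M * b) + b := by ring
  have e2 : M * (b + 1) = M * b + M := by ring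
  omega

theorem pr_up (A : ℝ) (hA : 0 < A) (hb : 2 ≤ b) (δ : ℝ) (hδ : 0 < δ) : ∀ᶠ n : ℕ in atTop, n % 2 = 1 →
    pr A (Q b n) ≤ (cc b + δ) * (Real.log n / n) := by
  classical
  filter_upwards [weight_lim A hA hb δ hδ, eventually_ge_atTop 1] with n h1 h2 h3
  refine le_trans ?_ (h1 h3).2
  unfold pr
  have hc := cc_pos hb
  split_ifs with h
  · exact min_le_right _ _
  · have h4 : 1 ≤ VV ⌊A * Real.log (Q b n)⌋₊ := one_le_VV _
    have h5 : 0 ≤ Real.log ((Q b n : ℕ) : ℝ) := Real.log_natCast_nonneg _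
    positivity

theorem pr_low (A : ℝ) (hA : 0 < A) (hb : 2 ≤ b) (δ : ℝ) (hδ : 0 < δ) : ∀ᶠ p : ℕ in atTop, p.Prime →
    ¬ Bad ⌊A * Real.log b⌋₊ p → (cc b - δ) * (Real.log p / p) ≤ pr A (Q b p) := by
  classical
  obtain ⟨x₁, hx₁⟩ := eventually_atTop.1 (pr_small A hA (1 / 2) (by norm_num))
  filter_upwards [weight_lim A hA hb δ hδ, Q_tendsto hb x₁, eventually_ge_atTop (b + 3)] with p h1 h2 h3 h4 h5
  have hodd : p % 2 = 1 := by
    rcases h4.eq_two_or_odd with h6 | h6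
    · omega
    · exact h6
  refine (h1 hodd).1.trans ?_
  have h6 := hx₁ _ (h2 hodd)
  have hp0 : (0 : ℝ) < p := by exact_mod_cast h4.pos
  have hrough : ∀ q : ℕ, q.Prime → (q : ℝ) ≤ A * Real.log (Q b p) → ¬ q ∣ Q b p := by
    intro q hq hqA hd
    obtain ⟨k, hk1, hk2⟩ := factor_form h4 (by omega) (fun h => by
      have := Nat.le_of_dvd (by omega) h
      omega) hq hd
    apply h5
    refine ⟨k, mem_Icc.2 ⟨hk1, ?_⟩, by rw [← hk2]; exact hq⟩
    apply Nat.le_floor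
    have h7 : (q : ℝ) = k * p + 1 := by rw [hk2]; push_cast; ring
    have h8 := (Q_log hb (Nat.odd_iff.2 hodd)).2
    have h9 : A * Real.log (Q b p) ≤ A * (p * Real.log b) := mul_le_mul_of_nonneg_left h8 hA.le
    have h10 : (k : ℝ) * p ≤ A * Real.log b * p := by linarith
    exact le_of_mul_le_mul_right h10 hp0
  unfold pr at h6 ⊢
  rw [if_pos hrough] at h6 ⊢
  have h7 : min 1 (VV ⌊A * Real.log ((Q b p : ℕ) : ℝ)⌋₊ / Real.log ((Q b p : ℕ) : ℝ)) = VV ⌊A * Real.log ((Q b p : ℕ) : ℝ)⌋₊ / Real.log ((Q b p : ℕ) : ℝ) := by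
    rcases min_le_iff.1 h6 with h8 | h8
    · norm_num at h8
    · exact min_eq_right (h8.trans (by norm_num))
  rw [h7]

open scoped Classical in
/-- the weight of the primes -/
noncomputable def gw (p : ℕ) : ℝ := if p.Prime then Real.log p / p else 0

open scoped Classical in
/-- the probabilities -/
noncomputable def hw (A : ℝ) (b p : ℕ) : ℝ := if p.Prime ∧ 2 < p then pr A (Q b p) else 0

theorem gw_lim : Tendsto (fun x : ℕ => (∑ p ∈ Ioc 1 x, gw p) / Real.log x) atTop (𝓝 1) := by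
  classical
  obtain ⟨C, hC⟩ := Pool.Agent.Helper923.HMertens.mertens_log
  have hTn : Tendsto (fun n : ℕ => (n : ℝ)) atTop atTop := tendsto_natCast_atTop_atTop
  have hlog : Tendsto (fun n : ℕ => Real.log (n : ℝ)) atTop atTop := Real.tendsto_log_atTop.comp hTn
  have h1 : ∀ x : ℕ, 1 ≤ x → |∑ p ∈ Ioc 1 x, gw p - Real.log x| ≤ C := by
    intro x hx
    have h2 : ∑ p ∈ (Icc 1 x).filter Nat.Prime, Real.log p / p = ∑ p ∈ Ioc 1 x, gw p := by
      unfold gw
      rw [← sum_filter]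
      apply sum_congr _ fun _ _ => rfl
      ext p
      rw [mem_filter, mem_filter, mem_Icc, mem_Ioc]
      constructor
      · rintro ⟨h3, h4⟩
        exact ⟨⟨h4.one_lt, h3.2⟩, h4⟩
      · rintro ⟨h3, h4⟩
        exact ⟨⟨h4.one_lt.le, h3.2⟩, h4⟩
    rw [← h2]
    exact hC x hx
  have h2 : Tendsto (fun x : ℕ => (∑ p ∈ Ioc 1 x, gw p - Real.log x) / Real.log x) atTop (𝓝 0) := by
    have h3 : Tendsto (fun x : ℕ => C / Real.log x) atTop (𝓝 0) := tendsto_const_nhds.div_atTop hlog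
    refine squeeze_zero_norm' ?_ h3
    filter_upwards [eventually_ge_atTop 2] with x hx
    have h9 : 0 < Real.log (x : ℝ) := Real.log_pos (by exact_mod_cast (by omega : 1 < x))
    rw [Real.norm_eq_abs, abs_div, abs_of_pos h9]
    exact div_le_div_of_nonneg_right (h1 x (by omega)) h9.le
  have h3 := h2.add_const 1
  rw [zero_add] at h3
  refine h3.congr' ?_
  filter_upwards [eventually_ge_atTop 2] with x hx
  have h9 : 0 < Real.log (x : ℝ) := Real.log_pos (by exact_mod_cast (by omega : 1 < x))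
  field_simp
  ring

/-- **the expected number** -/
theorem hw_lim (A : ℝ) (hA : 0 < A) (hb : 2 ≤ b) :
    Tendsto (fun x : ℕ => (∑ p ∈ Ioc 1 x, hw A b p) / Real.log x) atTop (𝓝 (cc b)) := by
  classical
  have hTn : Tendsto (fun n : ℕ => (n : ℝ)) atTop atTop := tendsto_natCast_atTop_atTop
  have hlog : Tendsto (fun n : ℕ => Real.log (n : ℝ)) atTop atTop := Real.tendsto_log_atTop.comp hTn
  have hc := cc_pos hb
  rw [Metric.tendsto_atTop]
  intro ε hε
  obtain ⟨δ, hδ⟩ : ∃ δ : ℝ, δ = min (cc b / 2) (min (1 / 2) (ε / (4 * (cc b + 2)))) := ⟨_, rfl⟩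
  have hδ0 : 0 < δ := by rw [hδ]; positivity
  have hδ1 : δ ≤ cc b / 2 := by rw [hδ]; exact min_le_left _ _
  have hδ2 : δ ≤ 1 / 2 := by rw [hδ]; exact (min_le_right _ _).trans (min_le_left _ _)
  have hδ3 : δ * (4 * (cc b + 2)) ≤ ε := by
    have : δ ≤ ε / (4 * (cc b + 2)) := by rw [hδ]; exact (min_le_right _ _).trans (min_le_right _ _)
    rwa [le_div_iff₀ (by positivity)] at this
  obtain ⟨P, hP⟩ := eventually_atTop.1 ((pr_up A hA hb δ hδ0).and (pr_low A hA hb δ hδ0))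
  obtain ⟨P₀, hP₀⟩ : ∃ P₀, P₀ = P + 3 := ⟨_, rfl⟩
  obtain ⟨K, hK⟩ : ∃ K, K = ⌊A * Real.log b⌋₊ := ⟨_, rfl⟩
  have hg0 : ∀ p : ℕ, 0 ≤ gw p := fun p => by
    unfold gw
    split_ifs
    · exact div_nonneg (Real.log_natCast_nonneg _) (Nat.cast_nonneg _)
    · exact le_rfl
  have hup : ∀ p : ℕ, P₀ < p → hw A b p ≤ (cc b + δ) * gw p := by
    intro p hp
    unfold hw gw
    by_cases h : p.Prime
    · rw [if_pos ⟨h, by omega⟩, if_pos h]
      refine (hP p (by omega)).1 ?_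
      rcases h.eq_two_or_odd with h6 | h6
      · omega
      · exact h6
    · rw [if_neg (fun h' => h h'.1), if_neg h, mul_zero]
  have hlo : ∀ p : ℕ, P₀ < p → (cc b - δ) * (gw p - fb K p) ≤ hw A b p := by
    intro p hp
    unfold hw gw fb
    by_cases h : p.Prime
    · rw [if_pos (show p.Prime ∧ 2 < p from ⟨h, by omega⟩), if_pos h]
      by_cases h2 : Bad K p
      · rw [if_pos (show p.Prime ∧ Bad K p from ⟨h, h2⟩), sub_self, mul_zero]
        exact pr_nonneg A _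
      · rw [if_neg (show ¬ (p.Prime ∧ Bad K p) from fun h' => h2 h'.2), sub_zero]
        rw [hK] at h2
        exact (hP p (by omega)).2 h h2
    · rw [if_neg (show ¬ (p.Prime ∧ 2 < p) from fun h' => h h'.1), if_neg h,
        if_neg (show ¬ (p.Prime ∧ Bad K p) from fun h' => h h'.1), sub_zero, mul_zero]
  obtain ⟨C1, hC1⟩ : ∃ C1, C1 = ∑ p ∈ Ioc 1 P₀, hw A b p := ⟨_, rfl⟩
  obtain ⟨C2, hC2⟩ : ∃ C2, C2 = ∑ p ∈ Ioc 1 P₀, gw p := ⟨_, rfl⟩
  have hC10 : 0 ≤ C1 := by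
    rw [hC1]
    refine sum_nonneg fun p _ => ?_
    unfold hw
    split_ifs
    · exact pr_nonneg A _
    · exact le_rfl
  have hC20 : 0 ≤ C2 := by rw [hC2]; exact sum_nonneg fun p _ => hg0 p
  have e1 : ∀ᶠ x : ℕ in atTop, |(∑ p ∈ Ioc 1 x, gw p) / Real.log x - 1| < δ := by
    have := (Metric.tendsto_atTop.1 gw_lim) δ hδ0
    obtain ⟨N, hN⟩ := this
    filter_upwards [eventually_ge_atTop N] with x hx
    have := hN x hx
    rwa [Real.dist_eq] at this
  obtain ⟨N, hN⟩ := eventually_atTop.1 ((e1.and (bad_sum K δ hδ0)).and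
    (hlog.eventually_ge_atTop ((C1 + C2 * (cc b + 1)) / δ)))
  refine ⟨N + P₀ + 3, fun x hx => ?_⟩
  obtain ⟨⟨h1, h2⟩, h3⟩ := hN x (by omega)
  have hl : 0 < Real.log (x : ℝ) := Real.log_pos (by exact_mod_cast (by omega : 1 < x))
  obtain ⟨l, hl'⟩ : ∃ l, l = Real.log (x : ℝ) := ⟨_, rfl⟩
  rw [← hl'] at h1 h2 h3 hl ⊢
  obtain ⟨W, hW⟩ : ∃ W, W = ∑ p ∈ Ioc 1 x, gw p := ⟨_, rfl⟩
  rw [← hW] at h1
  obtain ⟨h4, h5⟩ := abs_lt.1 h1
  have hW1 : (1 - δ) * l ≤ W := by
    have : 1 - δ < W / l := by linarith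
    rw [lt_div_iff₀ hl] at this
    exact this.le
  have hW2 : W ≤ (1 + δ) * l := by
    have : W / l < 1 + δ := by linarith
    rw [div_lt_iff₀ hl] at this
    exact this.le
  have hCl : C1 + C2 * (cc b + 1) ≤ δ * l := by
    rw [div_le_iff₀ hδ0] at h3
    linarith
  have hsplit : ∀ f : ℕ → ℝ, ∑ p ∈ Ioc 1 x, f p = ∑ p ∈ Ioc 1 P₀, f p + ∑ p ∈ Ioc P₀ x, f p := fun f =>
    (sum_Ioc_consecutive f (by omega) (by omega)).symm
  have hgs : W = C2 + ∑ p ∈ Ioc P₀ x, gw p := by rw [hW, hsplit, hC2]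
  have hU : ∑ p ∈ Ioc 1 x, hw A b p ≤ C1 + (cc b + δ) * W := by
    rw [hsplit, ← hC1]
    have h6 : ∑ p ∈ Ioc P₀ x, hw A b p ≤ (cc b + δ) * ∑ p ∈ Ioc P₀ x, gw p := by
      rw [mul_sum]
      exact sum_le_sum fun p hp => hup p (mem_Ioc.1 hp).1
    have h7 : (cc b + δ) * ∑ p ∈ Ioc P₀ x, gw p ≤ (cc b + δ) * W := by
      apply mul_le_mul_of_nonneg_left _ (by positivity)
      linarith
    linarith
  have hLo : (cc b - δ) * (W - C2 - δ * l) ≤ ∑ p ∈ Ioc 1 x, hw A b p := by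
    rw [hsplit, ← hC1]
    have h6 : (cc b - δ) * (∑ p ∈ Ioc P₀ x, gw p - ∑ p ∈ Ioc P₀ x, fb K p) ≤ ∑ p ∈ Ioc P₀ x, hw A b p := by
      rw [← sum_sub_distrib, mul_sum]
      exact sum_le_sum fun p hp => hlo p (mem_Ioc.1 hp).1
    have h7 : ∑ p ∈ Ioc P₀ x, fb K p ≤ δ * l := by
      refine le_trans ?_ h2
      exact sum_le_sum_of_subset_of_nonneg (Ioc_subset_Ioc_left (by omega)) fun p _ _ => fb_nonneg K p
    have h8 : (cc b - δ) * (W - C2 - δ * l) ≤ (cc b - δ) * (∑ p ∈ Ioc P₀ x, gw p - ∑ p ∈ Ioc P₀ x, fb K p) := by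
      apply mul_le_mul_of_nonneg_left _ (by linarith)
      linarith
    linarith
  rw [Real.dist_eq, abs_lt]
  have hcd : 0 ≤ cc b - δ := by linarith
  constructor
  · rw [lt_sub_iff_add_lt, lt_div_iff₀ hl]
    refine lt_of_lt_of_le ?_ hLo
    -- `(c - ε) l < (c - δ)(W - C2 - δ l)`
    have h9 : (cc b - δ) * ((1 - δ) * l - C2 - δ * l) ≤ (cc b - δ) * (W - C2 - δ * l) :=
      mul_le_mul_of_nonneg_left (by linarith) hcd
    refine lt_of_lt_of_le ?_ h9
    have h10 : (cc b - δ) * C2 ≤ δ * l := by nlinarith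
    have h11 : 0 < δ * l := by positivity
    have h12 : δ * l * (4 * (cc b + 2)) ≤ ε * l := by nlinarith
    have h13 : 0 < cc b * (δ * l) := by positivity
    have h14 : 0 ≤ δ * (δ * l) := by positivity
    nlinarith
  · rw [sub_lt_iff_lt_add, div_lt_iff₀ hl]
    refine lt_of_le_of_lt hU ?_
    have h9 : (cc b + δ) * W ≤ (cc b + δ) * ((1 + δ) * l) := mul_le_mul_of_nonneg_left hW2 (by positivity)
    have h10 : C1 ≤ δ * l := by nlinarith
    have h11 : 0 < δ * l := by positivity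
    have h12 : δ * l * (4 * (cc b + 2)) ≤ ε * l := by nlinarith
    have h13 : 0 < cc b * (δ * l) := by positivity
    have h14 : δ * (δ * l) ≤ 1 / 2 * (δ * l) := mul_le_mul_of_nonneg_right hδ2 h11.le
    nlinarith

end Pool.Agent.T2H62.MO
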